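import Pool.Agent.R5.GF.Main

/-!
# The gap factor between Avoider-Forcer and Maker-Breaker games for large winning sets

Playing against a Forcer strategy and against a Breaker strategy at the same time, with common
moves, bounds the gap factor: if every winning set contains at least half of the `n` points of the
board, then the gap factor is at most `3/2 (1 + 1/n)`.
-/

namespace Pool.Agent.Results.MP_c0ff68_co.LargeSetsCoupling

open Pool.Agent.R5.GF

theorem result :
    (∀ (n : ℕ) (F : Finset (Finset (Fin n))) (c : ℝ), 1 ≤ c → GapFactorAtLeast F c →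
      ∃ A ∈ F, A.card ≤ (n + 1) / 2 ∧
        c * ((A.card : ℝ) - (((n + 1) / 2 : ℕ) : ℝ) + (n : ℝ) / 3) ≤ A.card) ∧
    (∀ (n : ℕ) (F : Finset (Finset (Fin n))) (c : ℝ), 1 ≤ n → 1 ≤ c →
      (∀ A ∈ F, n ≤ 2 * A.card) → GapFactorAtLeast F c → c ≤ 3 / 2 * (1 + 1 / (n : ℝ))) := by
  refine ⟨?_, ?_⟩
  · intro n F c hc h
    exact coupling_bound F c hc h
  · intro n F c hn hc hF h
    exact half_board hn F hF c hc h

end Pool.Agent.Results.MP_c0ff68_co.LargeSetsCoupling
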